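import Pool.Agent.Helper6.EP.Newton

/-!
# EP swarm, parts DET and DETK
-/

set_option autoImplicit false
set_option linter.unusedSectionVars false

open Polynomial

namespace Pool.Agent.Helper6.EP

open Pool.Agent.Helper20.EP

/-- Many elements in a short interval. -/
lemma exists_cluster {c ρ : ℝ} (hc0 : 0 < c) (hc1 : c < 1) (hρ : 0 < ρ) (n : ℕ) {M c₀ : ℝ}
    (hM : 1 ≤ M) {S : Finset ℤ} (hS : ∀ s ∈ S, |(s : ℝ) - c₀| ≤ ρ * M / 4)
    (hcard : (n : ℝ) * (ρ + 3) * M ^ (1 - c) < S.card) :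
    ∃ T : Finset ℤ, T ⊆ S ∧ n < T.card ∧ ∀ s ∈ T, ∀ t ∈ T, |(s : ℝ) - t| ≤ M ^ c := by
  classical
  set ℓ : ℝ := M ^ c with hℓ
  have hM0 : 0 < M := by linarith
  have hℓ0 : 0 < ℓ := Real.rpow_pos_of_pos hM0 _
  have hℓM : M / ℓ = M ^ (1 - c) := by
    rw [hℓ, Real.rpow_sub hM0, Real.rpow_one]
  have h1M : 1 ≤ M ^ (1 - c) := Real.one_le_rpow hM (by linarith)
  set a : ℤ := ⌊(c₀ - ρ * M / 4) / ℓ⌋ with ha
  set b : ℤ := ⌊(c₀ + ρ * M / 4) / ℓ⌋ with hb
  have hmap : ∀ s ∈ S, ⌊(s : ℝ) / ℓ⌋ ∈ Finset.Icc a b := by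
    intro s hs
    have h1 := abs_le.1 (hS s hs)
    rw [Finset.mem_Icc]
    constructor
    · exact Int.floor_le_floor (div_le_div_of_nonneg_right (by linarith) hℓ0.le)
    · exact Int.floor_le_floor (div_le_div_of_nonneg_right (by linarith) hℓ0.le)
  have hab : ((Finset.Icc a b).card : ℝ) ≤ (ρ + 3) * M ^ (1 - c) := by
    rw [Int.card_Icc]
    have h1 : ((b + 1 - a).toNat : ℝ) ≤ max ((b : ℝ) + 1 - a) 0 := by
      rcases le_total 0 (b + 1 - a) with h | h
      · have h2 : (((b + 1 - a).toNat : ℤ) : ℝ) = ((b + 1 - a : ℤ) : ℝ) := by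
          rw [Int.toNat_of_nonneg h]
        push_cast at h2
        rw [h2]
        exact le_max_left _ _
      · rw [Int.toNat_of_nonpos h]
        simp
    refine h1.trans (max_le ?_ (by positivity))
    have h2 : (b : ℝ) ≤ (c₀ + ρ * M / 4) / ℓ := Int.floor_le _
    have h3 : (c₀ - ρ * M / 4) / ℓ < a + 1 := Int.lt_floor_add_one _
    have h4 : (c₀ + ρ * M / 4) / ℓ - (c₀ - ρ * M / 4) / ℓ = ρ / 2 * (M / ℓ) := by
      field_simp
      ring
    rw [hℓM] at h4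
    nlinarith
  obtain ⟨y, -, hy⟩ := Finset.exists_lt_card_fiber_of_mul_lt_card_of_maps_to (n := n) hmap (by
    have h1 : ((Finset.Icc a b).card : ℝ) * n < S.card := by
      refine lt_of_le_of_lt ?_ hcard
      rw [mul_comm, mul_assoc]
      exact mul_le_mul_of_nonneg_left hab (Nat.cast_nonneg n)
    exact_mod_cast h1)
  refine ⟨_, Finset.filter_subset _ _, hy, ?_⟩
  intro s hs t ht
  rw [Finset.mem_filter] at hs ht
  have h1 : (y : ℝ) ≤ (s : ℝ) / ℓ := by rw [← hs.2]; exact Int.floor_le _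
  have h2 : (s : ℝ) / ℓ < y + 1 := by rw [← hs.2]; exact Int.lt_floor_add_one _
  have h3 : (y : ℝ) ≤ (t : ℝ) / ℓ := by rw [← ht.2]; exact Int.floor_le _
  have h4 : (t : ℝ) / ℓ < y + 1 := by rw [← ht.2]; exact Int.lt_floor_add_one _
  rw [le_div_iff₀ hℓ0] at h1 h3
  rw [div_lt_iff₀ hℓ0] at h2 h4
  rw [abs_le]
  constructor <;> nlinarith

/-- The main estimate. -/
lemma small {A : ℕ} {ρ M c₀ : ℝ} (hρ : 0 < ρ) (hM : 1 ≤ M)
    (hM1 : (8 / ρ) ^ (2 * (2 * A + 1)) < M) {f : ℂ → ℂ}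
    (hf : DifferentiableOn ℂ f (Metric.ball (c₀ : ℂ) (ρ * M)))
    (hB : ∀ z ∈ Metric.ball (c₀ : ℂ) (ρ * M), ‖f z‖ ≤ M ^ A) {T : Finset ℤ}
    (hT : ∀ s ∈ T, |(s : ℝ) - c₀| ≤ ρ * M / 4)
    (hTT : ∀ s ∈ T, ∀ t ∈ T, |(s : ℝ) - t| ≤ M ^ ((1 : ℝ) / (2 * (2 * A + 1) : ℕ)))
    {s : Fin (2 * A + 1) → ℤ} (hs : Function.Injective s) (hsT : ∀ i, s i ∈ T) {x : ℤ}
    (hx : x ∈ T) :
    ‖(VV s : ℂ) * f x - ∑ i, f (s i) * (WW s x i : ℂ)‖ < 1 := by
  have hM0 : 0 < M := by linarith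
  have hnorm : ∀ y : ℤ, ‖(y : ℂ) - (c₀ : ℂ)‖ = |(y : ℝ) - c₀| := by
    intro y
    rw [← Complex.ofReal_intCast, ← Complex.ofReal_sub, Complex.norm_real, Real.norm_eq_abs]
  have h1 := core hs (x := x) (f := f) (c₀ := (c₀ : ℂ)) (R := ρ * M) (B := M ^ A)
    (ℓ := M ^ ((1 : ℝ) / (2 * (2 * A + 1) : ℕ))) (by positivity)
    (Real.one_le_rpow hM (by positivity)) hf hB
    (fun i => by rw [hnorm]; exact hT _ (hsT i)) (by rw [hnorm]; exact hT _ hx)
    (fun i j => hTT _ (hsT i) _ (hsT j)) (fun i => hTT _ hx _ (hsT i))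
  refine lt_of_le_of_lt h1 ?_
  set m := 2 * A + 1 with hm
  have hm0 : (m : ℝ) ≠ 0 := by positivity
  have h2 : (M ^ ((1 : ℝ) / (2 * m : ℕ))) ^ (m * m) = M ^ ((m : ℝ) / 2) := by
    rw [← Real.rpow_natCast, ← Real.rpow_mul hM0.le]
    congr 1
    push_cast
    field_simp
  have h3 : M ^ A * (8 / (ρ * M)) ^ m = (8 / ρ) ^ m * M ^ ((A : ℝ) - m) := by
    rw [Real.rpow_sub hM0, Real.rpow_natCast, Real.rpow_natCast, div_pow, div_pow, mul_pow]
    field_simp
  rw [h2, h3]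
  have h4 : M ^ ((m : ℝ) / 2) * ((8 / ρ) ^ m * M ^ ((A : ℝ) - m)) =
      (8 / ρ) ^ m * M ^ (-(1 / 2) : ℝ) := by
    rw [mul_left_comm, ← Real.rpow_add hM0]
    congr 2
    rw [hm]
    push_cast
    ring
  rw [h4, Real.rpow_neg hM0.le, ← div_eq_mul_inv, div_lt_one (Real.rpow_pos_of_pos hM0 _),
    ← Real.sqrt_eq_rpow]
  refine Real.lt_sqrt_of_sq_lt ?_
  rw [← pow_mul, mul_comm m 2]
  exact hM1

theorem det_thm : S_DET := by
  intro A
  refine ⟨2 * A + 1, (1 : ℝ) / (2 * (2 * A + 1) : ℕ), by positivity, ?_, ?_⟩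
  · rw [div_lt_one (by positivity)]
    push_cast
    have : (0 : ℝ) ≤ A := Nat.cast_nonneg A
    linarith
  intro ρ k D hρ
  refine ⟨((max D (2 * A + 1) : ℕ) : ℝ) * (ρ + 3), max 1 ((8 / ρ) ^ (2 * (2 * A + 1)) + 1), ?_⟩
  intro M c₀ E S hM hE hB hS hint hcard
  have hM1 : 1 ≤ M := (le_max_left _ _).trans hM
  have hM2 : (8 / ρ) ^ (2 * (2 * A + 1)) < M := by
    have := (le_max_right 1 ((8 / ρ) ^ (2 * (2 * A + 1)) + 1)).trans hM
    linarith
  have hc1 : (1 : ℝ) / (2 * (2 * A + 1) : ℕ) < 1 := by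
    rw [div_lt_one (by positivity)]
    push_cast
    have : (0 : ℝ) ≤ A := Nat.cast_nonneg A
    linarith
  obtain ⟨T, hTS, hTc, hTT⟩ := exists_cluster (by positivity) hc1 hρ (max D (2 * A + 1)) hM1 hS hcard
  have hT : ∀ s ∈ T, |(s : ℝ) - c₀| ≤ ρ * M / 4 := fun s hs => hS s (hTS hs)
  obtain ⟨U, hUT, hUc⟩ := Finset.exists_subset_card_eq (s := T) (n := 2 * A + 1)
    ((le_max_right D _).trans hTc.le)
  let e := (Finset.equivFinOfCardEq hUc).symm
  let s : Fin (2 * A + 1) → ℤ := fun i => (e i : ℤ)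
  have hs : Function.Injective s := fun i j h => e.injective (Subtype.ext h)
  have hsT : ∀ i, s i ∈ T := fun i => hUT (e i).2
  choose! z hz using hint
  have hV : (VV s : ℂ) ≠ 0 := by exact_mod_cast VV_ne_zero hs
  refine ⟨fun j => Lagrange.interpolate Finset.univ (fun i => ((s i : ℤ) : ℚ))
    (fun i => ((z (s i) j : ℤ) : ℚ)), T, hTS, (le_max_left _ _).trans_lt hTc, fun j => ⟨?_, ?_⟩⟩
  · refine natDegree_le_of_degree_le ?_
    have h1 := Lagrange.degree_interpolate_lt (s := (Finset.univ : Finset (Fin (2 * A + 1))))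
      (v := fun i => ((s i : ℤ) : ℚ)) (fun i => ((z (s i) j : ℤ) : ℚ)) (by
        intro i _ i' _ h
        have h' : ((s i : ℤ) : ℚ) = s i' := h
        exact hs (by exact_mod_cast h'))
    rw [Finset.card_univ, Fintype.card_fin] at h1
    exact h1.le
  · intro x hx
    have h1 := small hρ hM1 hM2 (hE j) (hB j) hT hTT hs hsT hx
    have h2 : (VV s : ℂ) * E j (x : ℂ) - ∑ i, E j (s i) * (WW s x i : ℂ) =
        ((VV s * z x j - ∑ i, z (s i) j * WW s x i : ℤ) : ℂ) := by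
      push_cast
      rw [hz x (hTS hx) j]
      congr 1
      refine Finset.sum_congr rfl fun i _ => ?_
      rw [hz (s i) (hTS (hsT i)) j]
    have h3 : VV s * z x j - ∑ i, z (s i) j * WW s x i = 0 := by
      rw [h2, Complex.norm_intCast] at h1
      rw [← Int.abs_lt_one_iff]
      exact_mod_cast h1
    have h4 := eval_interp (F := ℚ) hs x (fun i => ((z (s i) j : ℤ) : ℚ))
    have h5 : (VV s : ℚ) * (z x j : ℚ) = ∑ i, (z (s i) j : ℚ) * (WW s x i : ℚ) := by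
      have h6 := congrArg (Int.cast : ℤ → ℚ) h3
      push_cast at h6
      linarith
    have hVQ : (VV s : ℚ) ≠ 0 := by exact_mod_cast VV_ne_zero hs
    have h6 : (Lagrange.interpolate Finset.univ (fun i => ((s i : ℤ) : ℚ))
        (fun i => ((z (s i) j : ℤ) : ℚ))).eval (x : ℚ) = (z x j : ℚ) :=
      mul_left_cancel₀ hVQ (h4.trans h5.symm)
    rw [hz x (hTS hx) j]
    have h7 := congrArg (algebraMap ℚ ℂ) h6
    rw [← Polynomial.aeval_algebraMap_apply_eq_algebraMap_eval] at h7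
    simpa using h7.symm

/-- An algebraic integer with small conjugates is zero. -/
lemma eq_zero_of_small {K : Type} [Field K] [NumberField K] [IsGalois ℚ K] (ι : K →+* ℂ) {x : K}
    (hx : IsIntegral ℤ x) (h : ∀ γ : K ≃ₐ[ℚ] K, ‖ι (γ x)‖ < 1) : x = 0 := by
  classical
  have h1 := Algebra.norm_eq_prod_automorphisms ℚ x
  obtain ⟨n, hn⟩ := IsIntegrallyClosed.isIntegral_iff.1 (Algebra.isIntegral_norm ℚ hx)
  have h2 : (n : ℂ) = ∏ γ : K ≃ₐ[ℚ] K, ι (γ x) := by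
    rw [← map_prod, ← h1, ← hn]
    simp
  have h3 : ‖(n : ℂ)‖ < 1 := by
    rw [h2, norm_prod, ← Finset.mul_prod_erase Finset.univ _ (Finset.mem_univ (1 : K ≃ₐ[ℚ] K))]
    refine lt_of_le_of_lt ?_ (h 1)
    refine mul_le_of_le_one_right (norm_nonneg _) ?_
    exact Finset.prod_le_one (fun γ _ => norm_nonneg _) fun γ _ => (h γ).le
  have h4 : n = 0 := by
    rw [Complex.norm_intCast] at h3
    rw [← Int.abs_lt_one_iff]
    exact_mod_cast h3
  rw [h4, map_zero] at hn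
  exact (Algebra.norm_eq_zero_iff.1 hn.symm)

theorem detk_thm : S_DETK := by
  intro A r
  refine ⟨2 * A + 1, (1 : ℝ) / (2 * (2 * A + 1) : ℕ), by positivity, ?_, ?_⟩
  · rw [div_lt_one (by positivity)]
    push_cast
    have : (0 : ℝ) ≤ A := Nat.cast_nonneg A
    linarith
  intro ρ k D hρ
  refine ⟨((max D (2 * A + 1) : ℕ) : ℝ) * (ρ + 3), max 1 ((8 / ρ) ^ (2 * (2 * A + 1)) + 1), ?_⟩
  intro M c₀ E S K _ _ _ ι e π hM hE hB hS he hπ hcard
  have hM1 : 1 ≤ M := (le_max_left _ _).trans hM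
  have hM2 : (8 / ρ) ^ (2 * (2 * A + 1)) < M := by
    have := (le_max_right 1 ((8 / ρ) ^ (2 * (2 * A + 1)) + 1)).trans hM
    linarith
  have hc1 : (1 : ℝ) / (2 * (2 * A + 1) : ℕ) < 1 := by
    rw [div_lt_one (by positivity)]
    push_cast
    have : (0 : ℝ) ≤ A := Nat.cast_nonneg A
    linarith
  obtain ⟨T, hTS, hTc, hTT⟩ := exists_cluster (by positivity) hc1 hρ (max D (2 * A + 1)) hM1 hS hcard
  have hT : ∀ s ∈ T, |(s : ℝ) - c₀| ≤ ρ * M / 4 := fun s hs => hS s (hTS hs)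
  obtain ⟨U, hUT, hUc⟩ := Finset.exists_subset_card_eq (s := T) (n := 2 * A + 1)
    ((le_max_right D _).trans hTc.le)
  let e' := (Finset.equivFinOfCardEq hUc).symm
  let s : Fin (2 * A + 1) → ℤ := fun i => (e' i : ℤ)
  have hs : Function.Injective s := fun i j h => e'.injective (Subtype.ext h)
  have hsT : ∀ i, s i ∈ T := fun i => hUT (e' i).2
  have hV : (VV s : ℂ) ≠ 0 := by exact_mod_cast VV_ne_zero hs
  refine ⟨fun j a => Lagrange.interpolate Finset.univ (fun i => (s i : ℂ))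
    (fun i => E j a (s i : ℂ)), T, hTS, (le_max_left _ _).trans_lt hTc, fun j a => ⟨?_, ?_⟩⟩
  · refine natDegree_le_of_degree_le ?_
    have h1 := Lagrange.degree_interpolate_lt (s := (Finset.univ : Finset (Fin (2 * A + 1))))
      (v := fun i => (s i : ℂ)) (fun i => E j a (s i : ℂ)) (by
        intro i _ i' _ h
        have h' : (s i : ℂ) = s i' := h
        exact hs (by exact_mod_cast h'))
    rw [Finset.card_univ, Fintype.card_fin] at h1
    exact h1.le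
  · intro x hx
    let δ : Fin r → K := fun b => (VV s : K) * e j b x - ∑ i, e j b (s i) * (WW s x i : K)
    have hδι : ∀ b, ι (δ b) = (VV s : ℂ) * E j b (x : ℂ) -
        ∑ i, E j b (s i : ℂ) * (WW s x i : ℂ) := by
      intro b
      simp only [δ]
      rw [map_sub, map_mul, map_intCast, (he x (hTS hx) j b).1, map_sum]
      congr 1
      refine Finset.sum_congr rfl fun i _ => ?_
      rw [map_mul, map_intCast, (he (s i) (hTS (hsT i)) j b).1]
    have hδs : ∀ b, ‖ι (δ b)‖ < 1 := by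
      intro b
      rw [hδι]
      exact small hρ hM1 hM2 (hE j b) (hB j b) hT hTT hs hsT hx
    have hδγ : ∀ (γ : K ≃ₐ[ℚ] K) b, γ (δ b) = δ (π γ b) := by
      intro γ b
      simp only [δ]
      rw [map_sub, map_mul, map_intCast, hπ γ x (hTS hx) j b, map_sum]
      congr 1
      refine Finset.sum_congr rfl fun i _ => ?_
      rw [map_mul, map_intCast, hπ γ (s i) (hTS (hsT i)) j b]
    have hδi : IsIntegral ℤ (δ a) := by
      refine IsIntegral.sub ((isIntegral_intCast _).mul (he x (hTS hx) j a).2) ?_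
      refine IsIntegral.sum _ fun i _ => ?_
      exact (he (s i) (hTS (hsT i)) j a).2.mul (isIntegral_intCast _)
    have hδ0 : δ a = 0 := eq_zero_of_small ι hδi fun γ => by
      rw [hδγ]
      exact hδs _
    have h1 := hδι a
    rw [hδ0, map_zero] at h1
    have h2 := eval_interp (F := ℂ) hs x (fun i => E j a (s i : ℂ))
    have h3 : (VV s : ℂ) * E j a (x : ℂ) = ∑ i, E j a (s i : ℂ) * (WW s x i : ℂ) := by
      linear_combination -h1
    exact mul_left_cancel₀ hV (h3.trans h2.symm)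

end Pool.Agent.Helper6.EP
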