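import Pool.Agent.Helper20.EP.Spec1

/-!
# EP swarm: the algebra of the one-sided Mertens theorem

`V = Fin D → ℤ`: polynomials of degree `< D`; `sg θ i a` its value at the root `θ i` of `g`, `ev x a` its
value at the integer `x`.
-/

set_option autoImplicit false
set_option linter.unusedSectionVars false

open Polynomial

namespace Pool.Agent.Helper6.EP

open Pool.Agent.Helper20.EP

/-- value at `θ i` -/
noncomputable def sg {D : ℕ} (θ : Fin D → ℂ) (i : Fin D) (a : Fin D → ℤ) : ℂ :=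
  ∑ j, (a j : ℂ) * θ i ^ (j : ℕ)

/-- value at `x` -/
def ev {D : ℕ} (x : ℤ) (a : Fin D → ℤ) : ℤ := ∑ j, a j * x ^ (j : ℕ)

lemma sg_add {D : ℕ} (θ : Fin D → ℂ) (i : Fin D) (a b : Fin D → ℤ) :
    sg θ i (a + b) = sg θ i a + sg θ i b := by
  simp only [sg, Pi.add_apply, Int.cast_add, add_mul, Finset.sum_add_distrib]

lemma sg_sub {D : ℕ} (θ : Fin D → ℂ) (i : Fin D) (a b : Fin D → ℤ) :
    sg θ i (a - b) = sg θ i a - sg θ i b := by
  simp only [sg, Pi.sub_apply, Int.cast_sub, sub_mul, Finset.sum_sub_distrib]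

lemma sg_zero {D : ℕ} (θ : Fin D → ℂ) (i : Fin D) : sg θ i 0 = 0 := by
  simp [sg]

lemma ev_sub {D : ℕ} (x : ℤ) (a b : Fin D → ℤ) : ev x (a - b) = ev x a - ev x b := by
  simp only [ev, Pi.sub_apply, sub_mul, Finset.sum_sub_distrib]

/-- A0 -/
theorem exists_roots (g : ℤ[X]) (hm : g.Monic) (hi : Irreducible g) :
    ∃ θ : Fin g.natDegree → ℂ, Function.Injective θ ∧ ∀ i, aeval (θ i) g = 0 := by
  have h1 : Irreducible (g.map (algebraMap ℤ ℚ)) :=
    (Monic.irreducible_iff_irreducible_map_fraction_map hm).1 hi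
  have h2 : (g.map (algebraMap ℤ ℚ)).Separable := h1.separable
  have h3 := card_rootSet_eq_natDegree (K := ℂ) h2 (IsAlgClosed.splits _)
  rw [hm.natDegree_map] at h3
  let e := (Fintype.equivFinOfCardEq h3).symm
  refine ⟨fun i => (e i : ℂ), fun i j h => e.injective (Subtype.ext h), fun i => ?_⟩
  have h4 := (e i).2
  rw [mem_rootSet] at h4
  have h5 := h4.2
  rw [aeval_map_algebraMap] at h5
  exact h5

/-- A1 -/
theorem finite_ball {D : ℕ} {θ : Fin D → ℂ} (hθ : Function.Injective θ) (X : ℝ) :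
    {a : Fin D → ℤ | ∀ i, ‖sg θ i a‖ ≤ X}.Finite := by
  classical
  set V := Matrix.vandermonde θ with hV
  have hdet : V.det ≠ 0 := Matrix.det_vandermonde_ne_zero_iff.2 hθ
  have hinv : V⁻¹ * V = 1 := Matrix.nonsing_inv_mul V (Ne.isUnit hdet)
  set M : ℝ := ∑ j, ∑ i, ‖V⁻¹ j i‖ * |X| with hM
  refine (Set.finite_Icc (fun _ : Fin D => -⌈M⌉) (fun _ => ⌈M⌉)).subset ?_
  intro a ha
  have h1 : ∀ j, ‖(a j : ℂ)‖ ≤ M := by
    intro j
    have h2 : (a j : ℂ) = ∑ i, V⁻¹ j i * sg θ i a := by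
      have h3 : V.mulVec (fun j => (a j : ℂ)) = fun i => sg θ i a := by
        funext i
        simp only [Matrix.mulVec, dotProduct, sg, hV, Matrix.vandermonde_apply]
        exact Finset.sum_congr rfl fun j _ => mul_comm _ _
      have h4 : V⁻¹.mulVec (V.mulVec (fun j => (a j : ℂ))) = fun j => (a j : ℂ) := by
        rw [Matrix.mulVec_mulVec, hinv, Matrix.one_mulVec]
      rw [h3] at h4
      exact (congrFun h4 j).symm
    rw [h2]
    refine (norm_sum_le _ _).trans ?_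
    calc ∑ i, ‖V⁻¹ j i * sg θ i a‖ ≤ ∑ i, ‖V⁻¹ j i‖ * |X| := by
          refine Finset.sum_le_sum fun i _ => ?_
          rw [norm_mul]
          exact mul_le_mul_of_nonneg_left ((ha i).trans (le_abs_self X)) (norm_nonneg _)
      _ ≤ M := by
          rw [hM]
          exact Finset.single_le_sum (f := fun j => ∑ i, ‖V⁻¹ j i‖ * |X|)
            (fun j _ => Finset.sum_nonneg fun i _ => by positivity) (Finset.mem_univ j)
  constructor
  · intro j
    have h2 := h1 j
    rw [Complex.norm_intCast] at h2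
    have h3 := (abs_le.1 h2).1
    have h4 := Int.le_ceil M
    have h5 : (-⌈M⌉ : ℝ) ≤ (a j : ℝ) := by linarith
    exact_mod_cast h5
  · intro j
    have h2 := h1 j
    rw [Complex.norm_intCast] at h2
    have h3 := (abs_le.1 h2).2
    have h4 := Int.le_ceil M
    have h5 : (a j : ℝ) ≤ (⌈M⌉ : ℝ) := by linarith
    exact_mod_cast h5

section ring

variable {g : ℤ[X]}

/-- the basis `1, x, x^2, …` of `ℤ[x]/(g)` -/
noncomputable def bas (hm : g.Monic) : Module.Basis (Fin g.natDegree) ℤ (AdjoinRoot g) :=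
  (AdjoinRoot.powerBasis' hm).basis.reindex (finCongr (AdjoinRoot.powerBasis'_dim hm))

lemma bas_apply (hm : g.Monic) (j : Fin g.natDegree) : bas hm j = AdjoinRoot.root g ^ (j : ℕ) := by
  unfold bas
  rw [Module.Basis.reindex_apply, PowerBasis.coe_basis, AdjoinRoot.powerBasis'_gen]
  rfl

/-- the element with coefficients `a` -/
noncomputable def toA (hm : g.Monic) (a : Fin g.natDegree → ℤ) : AdjoinRoot g :=
  (bas hm).equivFun.symm a

lemma toA_eq (hm : g.Monic) (a : Fin g.natDegree → ℤ) :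
    toA hm a = ∑ j, (a j : AdjoinRoot g) * AdjoinRoot.root g ^ (j : ℕ) := by
  unfold toA
  rw [Module.Basis.equivFun_symm_apply]
  refine Finset.sum_congr rfl fun j _ => ?_
  rw [bas_apply, zsmul_eq_mul]

lemma map_toA (hm : g.Monic) {R : Type} [CommRing R] (f : AdjoinRoot g →+* R)
    (a : Fin g.natDegree → ℤ) :
    f (toA hm a) = ∑ j, (a j : R) * f (AdjoinRoot.root g) ^ (j : ℕ) := by
  rw [toA_eq, map_sum]
  refine Finset.sum_congr rfl fun j _ => ?_
  rw [map_mul, map_pow, map_intCast]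

lemma isDomain (hi : Irreducible g) : IsDomain (AdjoinRoot g) :=
  AdjoinRoot.isDomain_of_prime hi.prime

/-- multiplication by a nonzero element: the index of the ideal is the norm -/
lemma card_quot (hm : g.Monic) (hi : Irreducible g) {B : AdjoinRoot g} (hB : B ≠ 0) :
    (Algebra.norm ℤ B).natAbs =
      Nat.card (AdjoinRoot g ⧸ (LinearMap.range (LinearMap.mulLeft ℤ B))) ∧
    Nat.card (AdjoinRoot g ⧸ (LinearMap.range (LinearMap.mulLeft ℤ B))) ≠ 0 := by
  have := isDomain hi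
  have : Module.Free ℤ (AdjoinRoot g) := Module.Free.of_basis (bas hm)
  have : Module.Finite ℤ (AdjoinRoot g) := Module.Finite.of_basis (bas hm)
  have hinj : Function.Injective (LinearMap.mulLeft ℤ B) := fun x y h => mul_left_cancel₀ hB h
  have h1 := Submodule.natAbs_det_equiv (LinearMap.range (LinearMap.mulLeft ℤ B))
    (LinearEquiv.ofInjective (LinearMap.mulLeft ℤ B) hinj)
  have h2 : (LinearMap.range (LinearMap.mulLeft ℤ B)).subtype ∘ₗ
      AddMonoidHom.toIntLinearMap ((LinearEquiv.ofInjective (LinearMap.mulLeft ℤ B) hinj :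
        AdjoinRoot g ≃ₗ[ℤ] _) : AdjoinRoot g →+ _) = Algebra.lmul ℤ (AdjoinRoot g) B := by
    ext x
    rfl
  rw [h2, ← Algebra.norm_apply] at h1
  refine ⟨h1, ?_⟩
  rw [← h1]
  exact Int.natAbs_ne_zero.2 (Algebra.norm_ne_zero_iff.2 hB)

/-- the norm is the product of the conjugates -/
lemma norm_eq (hm : g.Monic) {θ : Fin g.natDegree → ℂ} (hθ : Function.Injective θ)
    (σ : Fin g.natDegree → (AdjoinRoot g →+* ℂ)) (hσ : ∀ i, σ i (AdjoinRoot.root g) = θ i)
    (B : AdjoinRoot g) : ((Algebra.norm ℤ B : ℤ) : ℂ) = ∏ i, σ i B := by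
  classical
  set V := Matrix.vandermonde θ with hV
  have hdet : V.det ≠ 0 := Matrix.det_vandermonde_ne_zero_iff.2 hθ
  rw [Algebra.norm_eq_matrix_det (bas hm)]
  set M := Algebra.leftMulMatrix (bas hm) B with hM
  have h1 : V * M.map (Int.castRingHom ℂ) = Matrix.diagonal (fun i => σ i B) * V := by
    ext i j
    rw [Matrix.mul_apply, Matrix.diagonal_mul]
    have h2 : σ i (B * bas hm j) = ∑ k, V i k * M.map (Int.castRingHom ℂ) k j := by
      conv_lhs => rw [← (bas hm).sum_repr (B * bas hm j)]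
      rw [map_sum]
      refine Finset.sum_congr rfl fun k _ => ?_
      rw [hM, Matrix.map_apply, Algebra.leftMulMatrix_eq_repr_mul, zsmul_eq_mul, map_mul,
        map_intCast, bas_apply hm k, map_pow, hσ, hV, Matrix.vandermonde_apply, mul_comm]
      rfl
    rw [← h2, map_mul, bas_apply, map_pow, hσ, hV, Matrix.vandermonde_apply]
  have h2 := congrArg Matrix.det h1
  rw [Matrix.det_mul, Matrix.det_mul, Matrix.det_diagonal, mul_comm] at h2
  have h3 := mul_right_cancel₀ hdet h2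
  rw [← h3]
  exact (RingHom.map_det (Int.castRingHom ℂ) M)

end ring

/-- the ring homomorphism to `ZMod p` -/
lemma exists_hom {g : ℤ[X]} {p x : ℕ} (hx : (p : ℤ) ∣ g.eval (x : ℤ)) :
    ∃ φ : AdjoinRoot g →+* ZMod p, φ (AdjoinRoot.root g) = (x : ZMod p) := by
  have h : g.eval₂ (Int.castRingHom (ZMod p)) (x : ZMod p) = 0 := by
    have h1 : g.eval₂ (Int.castRingHom (ZMod p)) (x : ZMod p) =
        Int.castRingHom (ZMod p) (g.eval (x : ℤ)) := by
      rw [← Polynomial.eval₂_hom]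
      simp
    rw [h1]
    exact (ZMod.intCast_zmod_eq_zero_iff_dvd _ _).2 hx
  exact ⟨AdjoinRoot.lift _ _ h, AdjoinRoot.lift_root h⟩

lemma hom_toA {g : ℤ[X]} (hm : g.Monic) {p x : ℕ} {φ : AdjoinRoot g →+* ZMod p}
    (hφ : φ (AdjoinRoot.root g) = (x : ZMod p)) (a : Fin g.natDegree → ℤ) :
    φ (toA hm a) = ((ev (x : ℤ) a : ℤ) : ZMod p) := by
  rw [map_toA, hφ, ev]
  push_cast
  rfl

lemma exists_emb {g : ℤ[X]} {z : ℂ} (hz : aeval z g = 0) :
    ∃ φ : AdjoinRoot g →+* ℂ, φ (AdjoinRoot.root g) = z := by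
  have h : g.eval₂ (Int.castRingHom ℂ) z = 0 := hz
  exact ⟨AdjoinRoot.lift _ _ h, AdjoinRoot.lift_root h⟩

/-- A2 -/
theorem prod_le (g : ℤ[X]) (hm : g.Monic) (hi : Irreducible g) {θ : Fin g.natDegree → ℂ}
    (hθ : Function.Injective θ) (h0 : ∀ i, aeval (θ i) g = 0) {a : Fin g.natDegree → ℤ}
    (ha : a ≠ 0) (S : Finset (ℕ × ℕ))
    (hS : ∀ q ∈ S, q.1.Prime ∧ q.2 < q.1 ∧ (q.1 : ℤ) ∣ g.eval (q.2 : ℤ) ∧
      (q.1 : ℤ) ∣ ev (q.2 : ℤ) a) :
    ((∏ q ∈ S, q.1 : ℕ) : ℝ) ≤ ∏ i, ‖sg θ i a‖ := by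
  classical
  choose σ hσ using fun i => exists_emb (h0 i)
  set B := toA hm a with hBdef
  have hB : B ≠ 0 := by
    intro h
    apply ha
    have h1 : (bas hm).equivFun B = a := by
      rw [hBdef, toA, LinearEquiv.apply_symm_apply]
    rw [h, map_zero] at h1
    exact h1.symm
  have h1 := norm_eq hm hθ σ hσ B
  have h2 : ∀ i, σ i B = sg θ i a := by
    intro i
    rw [hBdef, map_toA, hσ, sg]
  have h3 : ((Algebra.norm ℤ B).natAbs : ℝ) = ∏ i, ‖sg θ i a‖ := by
    have h4 := congrArg norm h1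
    rw [Complex.norm_intCast, norm_prod] at h4
    rw [Nat.cast_natAbs, Int.cast_abs, h4]
    exact Finset.prod_congr rfl fun i _ => by rw [h2]
  rw [← h3]
  obtain ⟨h4, h5⟩ := card_quot hm hi hB
  rw [h4]
  have hfin : Finite (AdjoinRoot g ⧸ (LinearMap.range (LinearMap.mulLeft ℤ B))) :=
    Nat.finite_of_card_ne_zero h5
  have hφ : ∀ q : S, ∃ φ : AdjoinRoot g →+* ZMod q.1.1, φ (AdjoinRoot.root g) = (q.1.2 : ZMod q.1.1) :=
    fun q => exists_hom (hS q.1 q.2).2.2.1
  choose φ hφ using hφ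
  have hprime : ∀ q : S, Fact q.1.1.Prime := fun q => ⟨(hS q.1 q.2).1⟩
  let I : S → Ideal (AdjoinRoot g) := fun q => RingHom.ker (φ q)
  have hmax : ∀ q, (I q).IsMaximal := fun q =>
    RingHom.ker_isMaximal_of_surjective (φ q) (ZMod.ringHom_surjective (φ q))
  have hne : ∀ q q' : S, q ≠ q' → I q ≠ I q' := by
    intro q q' hqq' h
    apply hqq'
    have e1 : q.1.1 = q'.1.1 := by
      by_contra hne
      have h6 : ((q.1.1 : ℕ) : AdjoinRoot g) ∈ I q := by
        change φ q _ = 0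
        rw [map_natCast, ZMod.natCast_self]
      rw [h] at h6
      have h7 : φ q' ((q.1.1 : ℕ) : AdjoinRoot g) = 0 := h6
      rw [map_natCast, ZMod.natCast_eq_zero_iff] at h7
      exact hne (((Nat.prime_dvd_prime_iff_eq (hS q'.1 q'.2).1 (hS q.1 q.2).1).1 h7).symm)
    have h6 : AdjoinRoot.root g - ((q.1.2 : ℕ) : AdjoinRoot g) ∈ I q := by
      change φ q _ = 0
      rw [map_sub, hφ, map_natCast, sub_self]
    rw [h] at h6
    have h7 : φ q' (AdjoinRoot.root g - ((q.1.2 : ℕ) : AdjoinRoot g)) = 0 := h6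
    rw [map_sub, hφ, map_natCast, sub_eq_zero, ZMod.natCast_eq_natCast_iff'] at h7
    have l1 := (hS q.1 q.2).2.1
    have l2 := (hS q'.1 q'.2).2.1
    rw [Nat.mod_eq_of_lt l2, Nat.mod_eq_of_lt (by rw [← e1]; exact l1)] at h7
    exact Subtype.ext (Prod.ext e1 h7.symm)
  let F : AdjoinRoot g →ₗ[ℤ] ((q : S) → ZMod q.1.1) :=
    LinearMap.pi fun q => (φ q).toAddMonoidHom.toIntLinearMap
  have hF : ∀ x q, F x q = φ q x := fun x q => rfl
  have hFs : Function.Surjective F := by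
    intro y
    choose z hz using fun q : S => ZMod.ringHom_surjective (φ q) (y q)
    obtain ⟨r, hr⟩ := Ideal.exists_forall_sub_mem_ideal (I := I)
      (fun q q' hqq' => by
        have := hmax q
        have := hmax q'
        exact Ideal.isCoprime_of_isMaximal (hne q q' hqq')) z
    refine ⟨r, funext fun q => ?_⟩
    have h6 : φ q (r - z q) = 0 := hr q
    rw [map_sub, hz, sub_eq_zero] at h6
    rw [hF, h6]
  have hker : LinearMap.range (LinearMap.mulLeft ℤ B) ≤ LinearMap.ker F := by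
    rintro _ ⟨y, rfl⟩
    rw [LinearMap.mem_ker]
    funext q
    rw [hF, LinearMap.mulLeft_apply, map_mul, hBdef, hom_toA hm (hφ q),
      (ZMod.intCast_zmod_eq_zero_iff_dvd _ _).2 (hS q.1 q.2).2.2.2, zero_mul]
    rfl
  have h6 := Nat.card_le_card_of_surjective (Submodule.liftQ _ F hker) (by
    intro y
    obtain ⟨x, rfl⟩ := hFs y
    exact ⟨Submodule.Quotient.mk x, rfl⟩)
  rw [Nat.card_pi] at h6
  simp only [Nat.card_zmod] at h6
  rw [Finset.prod_coe_sort S (fun q => q.1)] at h6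
  exact_mod_cast h6

/-- bound for the conjugates -/
lemma sg_le {D : ℕ} {θ : Fin D → ℂ} {H : ℝ} (hH : 1 ≤ H) (hθ : ∀ i, ‖θ i‖ ≤ H)
    {a : Fin D → ℤ} {M : ℝ} (ha : ∀ j, |(a j : ℝ)| ≤ M) (i : Fin D) :
    ‖sg θ i a‖ ≤ D * (M * H ^ D) := by
  unfold sg
  refine (norm_sum_le _ _).trans ?_
  calc ∑ j, ‖(a j : ℂ) * θ i ^ (j : ℕ)‖ ≤ ∑ _j : Fin D, M * H ^ D := by
        refine Finset.sum_le_sum fun j _ => ?_
        rw [norm_mul, norm_pow, Complex.norm_intCast]
        have h1 : ‖θ i‖ ^ (j : ℕ) ≤ H ^ D :=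
          (pow_le_pow_left₀ (norm_nonneg _) (hθ i) _).trans (pow_le_pow_right₀ hH j.2.le)
        exact mul_le_mul (ha j) h1 (by positivity) ((abs_nonneg _).trans (ha j))
    _ = D * (M * H ^ D) := by simp

lemma natDegree_pos {g : ℤ[X]} (hm : g.Monic) (hi : Irreducible g) : 1 ≤ g.natDegree := by
  by_contra h
  have h1 : g.natDegree = 0 := by omega
  rw [hm.natDegree_eq_zero] at h1
  exact hi.not_isUnit (h1 ▸ isUnit_one)

/-- A3 -/
theorem exists_rep (g : ℤ[X]) (hm : g.Monic) (hi : Irreducible g) {θ : Fin g.natDegree → ℂ}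
    (h0 : ∀ i, aeval (θ i) g = 0) {H : ℝ} (hH : 1 ≤ H) (hθH : ∀ i, ‖θ i‖ ≤ H)
    {p x : ℕ} (hp : p.Prime) (hx : (p : ℤ) ∣ g.eval (x : ℤ)) (c : ℤ) :
    ∃ t : Fin g.natDegree → ℤ, (p : ℤ) ∣ ev (x : ℤ) t - c ∧
      ∀ i, ‖sg θ i t‖ ≤ (g.natDegree : ℝ) ^ 2 * (p : ℝ) ^ ((1 : ℝ) / (g.natDegree : ℝ)) *
        H ^ (2 * g.natDegree) := by
  classical
  have := isDomain hi
  have : Fact p.Prime := ⟨hp⟩
  have hD1 : 1 ≤ g.natDegree := natDegree_pos hm hi
  have hD0 : (g.natDegree : ℝ) ≠ 0 := by positivity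
  obtain ⟨φ, hφ⟩ := exists_hom hx
  choose σ hσ using fun i => exists_emb (h0 i)
  set r : ℝ := (p : ℝ) ^ ((1 : ℝ) / (g.natDegree : ℝ)) with hr
  have hr0 : 0 ≤ r := by positivity
  set m := ⌊r⌋₊ with hmdef
  have hcard : Fintype.card (ZMod p) < Fintype.card (Fin g.natDegree → Fin (m + 1)) := by
    rw [ZMod.card, Fintype.card_fun, Fintype.card_fin, Fintype.card_fin]
    have h1 : r < (m : ℝ) + 1 := Nat.lt_floor_add_one r
    have h2 : r ^ g.natDegree = (p : ℝ) := by
      rw [hr, ← Real.rpow_natCast, ← Real.rpow_mul (by positivity), one_div_mul_cancel hD0,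
        Real.rpow_one]
    have h3 : (p : ℝ) < ((m : ℝ) + 1) ^ g.natDegree := by
      rw [← h2]
      exact pow_lt_pow_left₀ h1 hr0 (by omega)
    exact_mod_cast h3
  obtain ⟨u, v, huv, huv'⟩ := Fintype.exists_ne_map_eq_of_card_lt
    (fun u : Fin g.natDegree → Fin (m + 1) => φ (toA hm (fun j => ((u j : ℕ) : ℤ)))) hcard
  set β : Fin g.natDegree → ℤ := (fun j => ((u j : ℕ) : ℤ)) - (fun j => ((v j : ℕ) : ℤ)) with hβ
  set B := toA hm β with hBdef
  have hBsub : B = toA hm (fun j => ((u j : ℕ) : ℤ)) - toA hm (fun j => ((v j : ℕ) : ℤ)) := by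
    rw [hBdef, hβ]
    unfold toA
    rw [map_sub]
  have hφB : φ B = 0 := by
    rw [hBsub, map_sub, sub_eq_zero]
    exact huv'
  have hB : B ≠ 0 := by
    intro h
    apply huv
    have h1 : (bas hm).equivFun B = β := by
      rw [hBdef, toA, LinearEquiv.apply_symm_apply]
    rw [h, map_zero] at h1
    funext j
    have h2 := congrFun h1 j
    rw [hβ] at h2
    simp only [Pi.zero_apply, Pi.sub_apply] at h2
    ext
    omega
  have hβm : ∀ j, |(β j : ℝ)| ≤ r := by
    intro j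
    have h1 : |β j| ≤ (m : ℤ) := by
      rw [hβ]
      simp only [Pi.sub_apply]
      have h2 := (u j).2
      have h3 := (v j).2
      rw [abs_le]
      constructor <;> omega
    have h2 : |(β j : ℝ)| ≤ (m : ℝ) := by exact_mod_cast h1
    exact h2.trans (Nat.floor_le hr0)
  obtain ⟨-, hn0⟩ := card_quot hm hi hB
  set n := Nat.card (AdjoinRoot g ⧸ (LinearMap.range (LinearMap.mulLeft ℤ B))) with hn
  have hnpos : 0 < n := Nat.pos_of_ne_zero hn0
  obtain ⟨B', hB'⟩ : ∃ B', B * B' = (n : AdjoinRoot g) := by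
    have h1 : n • (Submodule.Quotient.mk (1 : AdjoinRoot g) :
        AdjoinRoot g ⧸ (LinearMap.range (LinearMap.mulLeft ℤ B))) = 0 := by
      rw [hn]
      exact card_nsmul_eq_zero'
    rw [← Submodule.Quotient.mk_smul, Submodule.Quotient.mk_eq_zero] at h1
    obtain ⟨B', h2⟩ := h1
    refine ⟨B', ?_⟩
    rw [LinearMap.mulLeft_apply] at h2
    rw [h2, nsmul_eq_mul, mul_one]
  set w := (bas hm).equivFun ((c : AdjoinRoot g) * B') with hw
  have hw' : toA hm w = (c : AdjoinRoot g) * B' := by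
    rw [hw, toA, LinearEquiv.symm_apply_apply]
  set q : Fin g.natDegree → ℤ := fun j => w j / (n : ℤ) with hq
  set s : Fin g.natDegree → ℤ := fun j => w j % (n : ℤ) with hs
  have hws : toA hm w = (n : AdjoinRoot g) * toA hm q + toA hm s := by
    rw [toA_eq, toA_eq, toA_eq, Finset.mul_sum, ← Finset.sum_add_distrib]
    refine Finset.sum_congr rfl fun j _ => ?_
    have h1 : w j = (n : ℤ) * q j + s j := (Int.mul_ediv_add_emod (w j) n).symm
    rw [h1]
    push_cast
    ring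
  set T := (c : AdjoinRoot g) - toA hm q * B with hT
  have hnT : (n : AdjoinRoot g) * T = toA hm s * B := by
    have h1 : (n : AdjoinRoot g) * T = (c : AdjoinRoot g) * B' * B - n * toA hm q * B := by
      rw [hT, ← hB']
      ring
    rw [h1, ← hw', hws]
    ring
  refine ⟨(bas hm).equivFun T, ?_, ?_⟩
  · have h1 : φ T = (c : ZMod p) := by
      rw [hT, map_sub, map_mul, hφB, mul_zero, sub_zero, map_intCast]
    have h2 : toA hm ((bas hm).equivFun T) = T := by
      rw [toA, LinearEquiv.symm_apply_apply]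
    rw [← h2, hom_toA hm hφ] at h1
    rw [← ZMod.intCast_zmod_eq_zero_iff_dvd, Int.cast_sub, h1, sub_self]
  · intro i
    have h2 : toA hm ((bas hm).equivFun T) = T := by
      rw [toA, LinearEquiv.symm_apply_apply]
    have h3 : ∀ a, σ i (toA hm a) = sg θ i a := by
      intro a
      rw [map_toA, hσ, sg]
    rw [← h3, h2]
    have h4 := congrArg (fun y => ‖σ i y‖) hnT
    simp only [map_mul, norm_mul, map_natCast, Complex.norm_natCast] at h4
    rw [hBdef, h3, h3] at h4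
    have h5 : ‖sg θ i s‖ ≤ g.natDegree * (n * H ^ g.natDegree) := by
      refine sg_le hH hθH (fun j => ?_) i
      have h6 : 0 ≤ s j := Int.emod_nonneg _ (by omega)
      have h7 : s j < n := Int.emod_lt_of_pos _ (by omega)
      rw [abs_of_nonneg (by exact_mod_cast h6)]
      exact_mod_cast h7.le
    have h6 : ‖sg θ i β‖ ≤ g.natDegree * (r * H ^ g.natDegree) := sg_le hH hθH hβm i
    have h7 : (n : ℝ) * ‖σ i T‖ ≤ (n : ℝ) * ((g.natDegree : ℝ) ^ 2 * r * H ^ (2 * g.natDegree)) := by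
      rw [h4]
      calc ‖sg θ i s‖ * ‖sg θ i β‖ ≤ (g.natDegree * (n * H ^ g.natDegree)) * (g.natDegree * (r * H ^ g.natDegree)) :=
            mul_le_mul h5 h6 (norm_nonneg _) (by positivity)
        _ = (n : ℝ) * ((g.natDegree : ℝ) ^ 2 * r * H ^ (2 * g.natDegree)) := by ring
    exact le_of_mul_le_mul_left h7 (by exact_mod_cast hnpos)

end Pool.Agent.Helper6.EP
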