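import Pool.Agent.Helper20.EP.Spec2

/-!
# EP swarm: interpolation error of holomorphic functions (for DET and DETK)
-/

set_option autoImplicit false
set_option linter.unusedSectionVars false

open Polynomial

namespace Pool.Agent.Helper6.EP

/-- one step of the Newton interpolation -/
lemma dslope_bound {f : ℂ → ℂ} {c₀ s : ℂ} {R B : ℝ} (hR : 0 < R)
    (hf : DifferentiableOn ℂ f (Metric.ball c₀ R)) (hB : ∀ z ∈ Metric.ball c₀ R, ‖f z‖ ≤ B)
    (hs : ‖s - c₀‖ ≤ R / 4) :
    DifferentiableOn ℂ (dslope f s) (Metric.ball c₀ R) ∧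
      ∀ z ∈ Metric.ball c₀ R, ‖dslope f s z‖ ≤ B * (8 / R) := by
  have hsb : s ∈ Metric.ball c₀ R := by
    rw [mem_ball_iff_norm]
    linarith
  have hd : DifferentiableOn ℂ (dslope f s) (Metric.ball c₀ R) :=
    (Complex.differentiableOn_dslope (Metric.isOpen_ball.mem_nhds hsb)).2 hf
  refine ⟨hd, fun z hz => ?_⟩
  rw [mem_ball_iff_norm] at hz
  set R' := max ((‖z - c₀‖ + R) / 2) (R / 2) with hR'
  have h1 : R' < R := by
    rw [hR']
    refine max_lt ?_ ?_ <;> linarith
  have h2 : ‖z - c₀‖ < R' := by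
    rw [hR']
    exact lt_of_lt_of_le (by linarith) (le_max_left _ _)
  have h3 : R / 2 ≤ R' := le_max_right _ _
  have hR'0 : R' ≠ 0 := by
    intro h
    linarith
  have hB0 : 0 ≤ B := (norm_nonneg _).trans (hB s hsb)
  refine Complex.norm_le_of_forall_mem_frontier_norm_le (U := Metric.ball c₀ R')
    Metric.isBounded_ball ?_ ?_ (subset_closure (by rw [mem_ball_iff_norm]; exact h2))
  · refine DifferentiableOn.diffContOnCl ?_
    rw [closure_ball _ hR'0]
    exact hd.mono (Metric.closedBall_subset_ball h1)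
  · intro y hy
    rw [frontier_ball _ hR'0, mem_sphere_iff_norm] at hy
    have hyb : y ∈ Metric.ball c₀ R := by
      rw [mem_ball_iff_norm]
      linarith
    have h4 : R / 4 ≤ ‖y - s‖ := by
      have h5 : ‖y - c₀‖ ≤ ‖y - s‖ + ‖s - c₀‖ := by
        have : y - c₀ = (y - s) + (s - c₀) := by ring
        rw [this]
        exact norm_add_le _ _
      linarith
    have h5 := sub_smul_dslope f s y
    rw [smul_eq_mul] at h5
    have h6 : ‖y - s‖ * ‖dslope f s y‖ ≤ 2 * B := by
      rw [← norm_mul, h5]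
      refine (norm_sub_le _ _).trans ?_
      have := hB y hyb
      have := hB s hsb
      linarith
    have h7 : R / 4 * ‖dslope f s y‖ ≤ 2 * B :=
      (mul_le_mul_of_nonneg_right h4 (norm_nonneg _)).trans h6
    rw [show B * (8 / R) = (2 * B) / (R / 4) by field_simp; ring, le_div_iff₀ (by positivity)]
    linarith

/-- Newton interpolation. -/
theorem newton (m : ℕ) : ∀ (s : Fin m → ℂ) (f : ℂ → ℂ) (c₀ : ℂ) (R B : ℝ), 0 < R →
    DifferentiableOn ℂ f (Metric.ball c₀ R) → (∀ z ∈ Metric.ball c₀ R, ‖f z‖ ≤ B) →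
    (∀ i, ‖s i - c₀‖ ≤ R / 4) →
    ∃ (N : ℂ[X]) (h : ℂ → ℂ), N.degree < m ∧ (∀ z, f z = N.eval z + (∏ i, (z - s i)) * h z) ∧
      ∀ z ∈ Metric.ball c₀ R, ‖h z‖ ≤ B * (8 / R) ^ m := by
  induction m with
  | zero =>
    intro s f c₀ R B hR hf hB hs
    refine ⟨0, f, ?_, ?_, ?_⟩
    · simp
    · intro z
      simp
    · intro z hz
      simpa using hB z hz
  | succ m ih =>
    intro s f c₀ R B hR hf hB hs
    obtain ⟨h1, h2⟩ := dslope_bound hR hf hB (hs 0)
    obtain ⟨N, h, hN, he, hb⟩ := ih (fun i => s i.succ) (dslope f (s 0)) c₀ R (B * (8 / R)) hR h1 h2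
      (fun i => hs i.succ)
    refine ⟨C (f (s 0)) + (X - C (s 0)) * N, h, ?_, ?_, ?_⟩
    · refine lt_of_le_of_lt (degree_add_le _ _) (max_lt ?_ ?_)
      · refine lt_of_le_of_lt degree_C_le ?_
        exact_mod_cast Nat.succ_pos m
      · rcases eq_or_ne N 0 with h0 | h0
        · rw [h0, mul_zero, degree_zero]
          exact WithBot.bot_lt_coe _
        · rw [degree_mul, degree_X_sub_C]
          rw [degree_eq_natDegree h0] at hN ⊢
          have h3 : N.natDegree < m := by exact_mod_cast hN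
          have h4 : 1 + N.natDegree < m + 1 := by omega
          exact_mod_cast h4
    · intro z
      have h3 := sub_smul_dslope f (s 0) z
      rw [smul_eq_mul, he z] at h3
      rw [eval_add, eval_C, eval_mul, eval_sub, eval_X, eval_C, Fin.prod_univ_succ]
      linear_combination -h3
    · intro z hz
      rw [pow_succ']
      have := hb z hz
      rw [mul_assoc] at this
      exact this

/-- `± ∏ (s i - s j)` -/
def VV {m : ℕ} (s : Fin m → ℤ) : ℤ := ∏ i, ∏ j ∈ Finset.univ.erase i, (s i - s j)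

/-- the coefficients of the interpolation at `x` -/
def WW {m : ℕ} (s : Fin m → ℤ) (x : ℤ) (i : Fin m) : ℤ :=
  (∏ j ∈ Finset.univ.erase i, (x - s j)) *
    ∏ i' ∈ Finset.univ.erase i, ∏ j ∈ Finset.univ.erase i', (s i' - s j)

lemma VV_ne_zero {m : ℕ} {s : Fin m → ℤ} (hs : Function.Injective s) : VV s ≠ 0 := by
  unfold VV
  refine Finset.prod_ne_zero_iff.2 fun i _ => Finset.prod_ne_zero_iff.2 fun j hj => ?_
  rw [sub_ne_zero]
  intro h
  exact (Finset.mem_erase.1 hj).1 (hs h).symm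

lemma eval_interp {F : Type} [Field F] [CharZero F] {m : ℕ} {s : Fin m → ℤ}
    (hs : Function.Injective s) (x : ℤ) (r : Fin m → F) :
    (VV s : F) * (Lagrange.interpolate Finset.univ (fun i => (s i : F)) r).eval (x : F) =
      ∑ i, r i * (WW s x i : F) := by
  rw [Lagrange.interpolate_apply, eval_finsetSum, Finset.mul_sum]
  refine Finset.sum_congr rfl fun i _ => ?_
  rw [eval_mul, eval_C]
  unfold Lagrange.basis Lagrange.basisDivisor
  rw [eval_prod]
  have h1 : (VV s : F) = (∏ j ∈ Finset.univ.erase i, ((s i : F) - s j)) *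
      ∏ i' ∈ Finset.univ.erase i, ∏ j ∈ Finset.univ.erase i', ((s i' : F) - s j) := by
    unfold VV
    rw [← Finset.mul_prod_erase Finset.univ _ (Finset.mem_univ i)]
    push_cast
    rfl
  have h2 : ∏ j ∈ Finset.univ.erase i, eval (x : F) (C ((s i : F) - s j)⁻¹ * (X - C (s j : F))) =
      (∏ j ∈ Finset.univ.erase i, ((s i : F) - s j))⁻¹ *
        ∏ j ∈ Finset.univ.erase i, ((x : F) - s j) := by
    rw [← Finset.prod_inv_distrib, ← Finset.prod_mul_distrib]
    refine Finset.prod_congr rfl fun j _ => ?_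
    rw [eval_mul, eval_C, eval_sub, eval_X, eval_C]
  have h3 : (∏ j ∈ Finset.univ.erase i, ((s i : F) - s j)) ≠ 0 := by
    refine Finset.prod_ne_zero_iff.2 fun j hj => ?_
    rw [sub_ne_zero]
    intro h
    exact (Finset.mem_erase.1 hj).1 (hs (by exact_mod_cast h)).symm
  rw [h1, h2]
  unfold WW
  push_cast
  field_simp

/-- the error of the interpolation -/
theorem core {m : ℕ} {s : Fin m → ℤ} (hs : Function.Injective s) {x : ℤ} {f : ℂ → ℂ} {c₀ : ℂ}
    {R B ℓ : ℝ} (hR : 0 < R) (hℓ : 1 ≤ ℓ)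
    (hf : DifferentiableOn ℂ f (Metric.ball c₀ R)) (hB : ∀ z ∈ Metric.ball c₀ R, ‖f z‖ ≤ B)
    (hsc : ∀ i, ‖(s i : ℂ) - c₀‖ ≤ R / 4) (hxc : ‖(x : ℂ) - c₀‖ ≤ R / 4)
    (hss : ∀ i j, |(s i : ℝ) - s j| ≤ ℓ) (hxs : ∀ i, |(x : ℝ) - s i| ≤ ℓ) :
    ‖(VV s : ℂ) * f x - ∑ i, f (s i) * (WW s x i : ℂ)‖ ≤ ℓ ^ (m * m) * (B * (8 / R) ^ m) := by
  obtain ⟨N, h, hN, he, hb⟩ := newton m (fun i => (s i : ℂ)) f c₀ R B hR hf hB hsc
  have hinj : Set.InjOn (fun i => (s i : ℂ)) (Finset.univ : Finset (Fin m)) := by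
    intro i _ j _ hij
    have hij' : (s i : ℂ) = s j := hij
    exact hs (by exact_mod_cast hij')
  have h1 : ∀ i, N.eval (s i : ℂ) = f (s i) := by
    intro i
    rw [he (s i), Finset.prod_eq_zero (Finset.mem_univ i) (sub_self _), zero_mul, add_zero]
  have h2 : N = Lagrange.interpolate Finset.univ (fun i => (s i : ℂ)) (fun i => f (s i)) :=
    Lagrange.eq_interpolate_of_eval_eq _ hinj (by simpa using hN) (fun i _ => h1 i)
  have h3 := eval_interp hs x (fun i => f (s i : ℂ))
  rw [← h2] at h3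
  rw [← h3, he x]
  have h4 : (VV s : ℂ) * (N.eval (x : ℂ) + (∏ i, ((x : ℂ) - s i)) * h x) - VV s * N.eval (x : ℂ) =
      (VV s : ℂ) * ((∏ i, ((x : ℂ) - s i)) * h x) := by ring
  rw [h4, norm_mul, norm_mul]
  have hxb : (x : ℂ) ∈ Metric.ball c₀ R := by
    rw [mem_ball_iff_norm]
    linarith
  have h5 := hb x hxb
  have h6 : ‖(VV s : ℂ)‖ ≤ ℓ ^ (m * (m - 1)) := by
    unfold VV
    push_cast
    rw [norm_prod]
    calc ∏ i, ‖∏ j ∈ Finset.univ.erase i, ((s i : ℂ) - s j)‖ ≤ ∏ _i : Fin m, ℓ ^ (m - 1) := by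
          refine Finset.prod_le_prod (fun i _ => norm_nonneg _) fun i _ => ?_
          rw [norm_prod]
          calc ∏ j ∈ Finset.univ.erase i, ‖(s i : ℂ) - s j‖ ≤ ∏ _j ∈ Finset.univ.erase i, ℓ := by
                refine Finset.prod_le_prod (fun j _ => norm_nonneg _) fun j _ => ?_
                have h7 : ((s i : ℂ) - s j) = ((s i - s j : ℤ) : ℂ) := by push_cast; ring
                rw [h7, Complex.norm_intCast]
                push_cast
                exact hss i j
            _ = ℓ ^ (m - 1) := by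
                rw [Finset.prod_const, Finset.card_erase_of_mem (Finset.mem_univ i),
                  Finset.card_univ, Fintype.card_fin]
      _ = ℓ ^ (m * (m - 1)) := by
          rw [Finset.prod_const, Finset.card_univ, Fintype.card_fin, ← pow_mul, mul_comm]
  have h7 : ‖∏ i, ((x : ℂ) - s i)‖ ≤ ℓ ^ m := by
    rw [norm_prod]
    calc ∏ i, ‖(x : ℂ) - s i‖ ≤ ∏ _i : Fin m, ℓ := by
          refine Finset.prod_le_prod (fun j _ => norm_nonneg _) fun j _ => ?_
          have h7 : ((x : ℂ) - s j) = ((x - s j : ℤ) : ℂ) := by push_cast; ring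
          rw [h7, Complex.norm_intCast]
          push_cast
          exact hxs j
      _ = ℓ ^ m := by rw [Finset.prod_const, Finset.card_univ, Fintype.card_fin]
  have h8 : m * m = m * (m - 1) + m := by
    rcases m with _ | m
    · rfl
    · simp only [Nat.add_sub_cancel]
      ring
  rw [h8, pow_add, mul_assoc]
  have h9 : 0 ≤ B * (8 / R) ^ m := (norm_nonneg _).trans h5
  have h10 : 0 ≤ ℓ := by linarith
  exact mul_le_mul h6 (mul_le_mul h7 h5 (norm_nonneg _) (by positivity)) (by positivity)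
    (by positivity)

end Pool.Agent.Helper6.EP
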